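import Pool.Agent.H517R2.LE.Defs

/-! Task AGR (helper955). -/

set_option autoImplicit false

namespace Pool.Agent.H517R2.LE

open Finset

private theorem AGR_card (n : ℕ) (x : Fin n → Fin 256) (W : Finset (Fin n)) :
    ((univ : Finset (Fin n → Fin 256)).filter (fun y => ∀ i ∈ W, x i = y i)).card ≤
      256 ^ (n - W.card) := by
  classical
  have h1 : (univ : Finset (Fin n → Fin 256)).filter (fun y => ∀ i ∈ W, x i = y i) ⊆
      Fintype.piFinset (fun i => if i ∈ W then {x i} else (univ : Finset (Fin 256))) := by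
    intro y hy
    rw [mem_filter] at hy
    rw [Fintype.mem_piFinset]
    intro i
    by_cases hi : i ∈ W
    · rw [if_pos hi, mem_singleton]
      exact (hy.2 i hi).symm
    · rw [if_neg hi]
      exact mem_univ _
  refine (card_le_card h1).trans ?_
  rw [Fintype.card_piFinset]
  have h2 : ∀ i : Fin n, (if i ∈ W then {x i} else (univ : Finset (Fin 256))).card =
      if i ∈ W then 1 else 256 := by
    intro i
    split_ifs
    · simp
    · simp
  rw [prod_congr rfl fun i _ => h2 i, prod_ite, prod_const_one, one_mul, prod_const]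
  have h3 : ((univ : Finset (Fin n)).filter (fun i => i ∉ W)).card = n - W.card := by
    have : (univ : Finset (Fin n)).filter (fun i => i ∉ W) = Wᶜ := by
      ext i; simp
    rw [this, card_compl, Fintype.card_fin]
  rw [h3]

theorem t_AGR : AGR := by
  intro n hn x
  classical
  set w0 := n / 4 + 1 with hw0
  have hw : w0 ≤ n := by omega
  have h1 : (univ : Finset (Fin n → Fin 256)).filter
      (fun y => n < 4 * ((univ : Finset (Fin n)).filter (fun i => x i = y i)).card) ⊆
      ((univ : Finset (Fin n)).powersetCard w0).biUnion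
        (fun W => (univ : Finset (Fin n → Fin 256)).filter (fun y => ∀ i ∈ W, x i = y i)) := by
    intro y hy
    rw [mem_filter] at hy
    have h2 : w0 ≤ ((univ : Finset (Fin n)).filter (fun i => x i = y i)).card := by omega
    obtain ⟨W, hW1, hW2⟩ := exists_subset_card_eq h2
    rw [mem_biUnion]
    refine ⟨W, mem_powersetCard.2 ⟨subset_univ _, hW2⟩, ?_⟩
    rw [mem_filter]
    refine ⟨mem_univ _, fun i hi => ?_⟩
    exact (mem_filter.1 (hW1 hi)).2
  have h2 := (card_le_card h1).trans card_biUnion_le
  have h3 : ∑ W ∈ (univ : Finset (Fin n)).powersetCard w0,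
      ((univ : Finset (Fin n → Fin 256)).filter (fun y => ∀ i ∈ W, x i = y i)).card ≤
      2 ^ n * 256 ^ (n - w0) := by
    calc ∑ W ∈ (univ : Finset (Fin n)).powersetCard w0,
        ((univ : Finset (Fin n → Fin 256)).filter (fun y => ∀ i ∈ W, x i = y i)).card
        ≤ ∑ _W ∈ (univ : Finset (Fin n)).powersetCard w0, 256 ^ (n - w0) := by
          refine sum_le_sum fun W hW => ?_
          have := AGR_card n x W
          rwa [(mem_powersetCard.1 hW).2] at this
      _ = n.choose w0 * 256 ^ (n - w0) := by
          rw [sum_const, card_powersetCard, card_univ, Fintype.card_fin, smul_eq_mul]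
      _ ≤ 2 ^ n * 256 ^ (n - w0) := Nat.mul_le_mul_right _ (Nat.choose_le_two_pow n w0)
  have h4 : 2 ^ n * (2 ^ n * 256 ^ (n - w0)) < 256 ^ n := by
    have h5 : 256 ^ n = 256 ^ w0 * 256 ^ (n - w0) := by
      rw [← pow_add]
      congr 1
      omega
    have h6 : 2 ^ n * 2 ^ n < 256 ^ w0 := by
      have h7 : (256 : ℕ) = 2 ^ 8 := by norm_num
      rw [h7, ← pow_mul, ← pow_add]
      exact Nat.pow_lt_pow_right (by norm_num) (by omega)
    rw [h5, ← mul_assoc]
    exact Nat.mul_lt_mul_of_pos_right h6 (by positivity)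
  exact lt_of_le_of_lt (Nat.mul_le_mul_left _ (h2.trans h3)) h4

end Pool.Agent.H517R2.LE
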