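import Pool.Agent.H517R2.LE.Defs

/-!
# COD: a code with small agreement
-/

namespace Pool.Agent.H517R2.LE

open Finset

theorem t_COD (h1 : GRD) (h2 : AGR) : COD := by
  intro n
  rcases Nat.eq_zero_or_pos n with hn | hn
  · subst hn
    exact ⟨fun _ _ => 0, fun U V hUV => absurd (Subsingleton.elim U V) hUV⟩
  have h256 : 0 < 256 ^ n := by positivity
  obtain ⟨c, hc⟩ := h1 (Fin n → Fin 256) (Finset (Fin n))
    (fun x y => n < 4 * ((univ : Finset (Fin n)).filter (fun i => x i = y i)).card)
    ((256 ^ n - 1) / 2 ^ n)
    (by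
      intro x y h
      have e : (univ : Finset (Fin n)).filter (fun i => y i = x i) =
          (univ : Finset (Fin n)).filter (fun i => x i = y i) :=
        Finset.filter_congr fun i _ => eq_comm
      rw [e]
      exact h)
    (by
      intro x
      rw [Nat.le_div_iff_mul_le (by positivity)]
      have h := h2 n hn x
      rw [mul_comm]
      omega)
    (by
      rw [Fintype.card_finset, Fintype.card_fin]
      have h3 : Fintype.card (Fin n → Fin 256) = 256 ^ n := by
        simp
      rw [h3]
      have h4 : 2 ^ n * ((256 ^ n - 1) / 2 ^ n) ≤ 256 ^ n - 1 := Nat.mul_div_le _ _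
      omega)
  exact ⟨c, fun U V hUV => not_lt.1 (hc U V hUV)⟩

end Pool.Agent.H517R2.LE
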