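import Pool.Agent.H517R2.LE.Defs

namespace Pool.Agent.H517R2.LE

open Finset

theorem t_CODE (h : LAB) : CODE := by
  classical
  intro q n t r htn hr
  obtain ⟨c, hc⟩ := h n (n - t) (by omega)
  have hE : ∀ E : Finset (Fin n), E.card ≤ t → ∃ E1 : Finset (Fin n), E ⊆ E1 ∧ E1.card = t :=
    fun E hE => by
      obtain ⟨E1, h1, h2⟩ := Finset.exists_superset_card_eq hE (by simp; omega)
      exact ⟨E1, h1, h2⟩
  choose! E1 hE1 using hE
  obtain ⟨g⟩ : Nonempty (Fin (2 ^ 19) × Fin r ↪ Fin q) :=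
    Function.Embedding.nonempty_of_card_le (by simpa using hr)
  by_cases hq : q = 0
  · -- then r = 0 and there are no messages
    have hr0 : r = 0 := by omega
    have hM : r ^ (n - t) = 0 := by rw [hr0]; exact zero_pow (by omega)
    refine ⟨fun m => absurd m.2 (by omega), fun m => absurd m.2 (by omega)⟩
  · have hq0 : 0 < q := Nat.pos_of_ne_zero hq
    let d : Fin (r ^ (n - t)) ≃ (Fin (n - t) → Fin r) := finFunctionFinEquiv.symm
    let sym : Finset (Fin n) → Fin (r ^ (n - t)) → Fin n → Fin q := fun V m i =>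
      if hV : V.card = n - t ∧ i ∈ V then
        g (c V i, d m ((V.orderIsoOfFin hV.1).symm ⟨i, hV.2⟩)) else ⟨0, hq0⟩
    have hsym : ∀ (V : Finset (Fin n)) (hV : V.card = n - t) (m : Fin (r ^ (n - t))) (i : Fin n)
        (hi : i ∈ V), sym V m i = g (c V i, d m ((V.orderIsoOfFin hV).symm ⟨i, hi⟩)) := by
      intro V hV m i hi
      simp only [sym]
      rw [dif_pos ⟨hV, hi⟩]
    refine ⟨fun m E => sym (E1 E)ᶜ m, ?_⟩
    intro m m' hm E E' hEc hEc' hy
    obtain ⟨y, hy1, hy2⟩ := hy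
    have hV : ((E1 E)ᶜ).card = n - t := by
      rw [card_compl, (hE1 E hEc).2, Fintype.card_fin]
    have hV' : ((E1 E')ᶜ).card = n - t := by
      rw [card_compl, (hE1 E' hEc').2, Fintype.card_fin]
    have k1 : ∀ i ∈ (E1 E)ᶜ, y i = sym (E1 E)ᶜ m i := fun i hi =>
      hy1 i fun h' => (mem_compl.1 hi) ((hE1 E hEc).1 h')
    have k2 : ∀ i ∈ (E1 E')ᶜ, y i = sym (E1 E')ᶜ m' i := fun i hi =>
      hy2 i fun h' => (mem_compl.1 hi) ((hE1 E' hEc').1 h')
    generalize (E1 E)ᶜ = V at hV k1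
    generalize (E1 E')ᶜ = V' at hV' k2
    by_cases hVV : V = V'
    · subst hVV
      apply hm
      apply d.injective
      funext j
      have hi : ((V.orderIsoOfFin hV j : V) : Fin n) ∈ V := (V.orderIsoOfFin hV j).2
      have e := (k1 _ hi).symm.trans (k2 _ hi)
      rw [hsym V hV m _ hi, hsym V hV m' _ hi] at e
      have e2 := congrArg Prod.snd (g.injective e)
      have e3 : (V.orderIsoOfFin hV).symm ⟨((V.orderIsoOfFin hV j : V) : Fin n), hi⟩ = j :=
        (V.orderIsoOfFin hV).symm_apply_apply j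
      rw [e3] at e2
      exact e2
    · obtain ⟨i, hi, hne⟩ := hc V V' hV hV' hVV
      rw [mem_inter] at hi
      have e := (k1 _ hi.1).symm.trans (k2 _ hi.2)
      rw [hsym V hV m i hi.1, hsym V' hV' m' i hi.2] at e
      exact hne (congrArg Prod.fst (g.injective e))

end Pool.Agent.H517R2.LE
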