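import Mathlib

/-!
# Localized errors: codes of rate `(1-τ)(1 - O(1/log q))` for every `τ < 1/2`
-/

namespace Pool.Agent.H517R2.LE

open Finset

/-- The map `f` (message, error set) ↦ word corrects `t` localized errors. -/
def Corrects {q n M : ℕ} (t : ℕ) (f : Fin M → Finset (Fin n) → Fin n → Fin q) : Prop :=
  ∀ m m' : Fin M, m ≠ m' → ∀ E E' : Finset (Fin n), E.card ≤ t → E'.card ≤ t →
    ¬ ∃ y : Fin n → Fin q, (∀ i, i ∉ E → y i = f m E i) ∧ (∀ i, i ∉ E' → y i = f m' E' i)

/-- The Hamming bound `1 - h_q(τ) - τ log_q (q-1)`. -/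
noncomputable def hammingRate (q : ℕ) (τ : ℝ) : ℝ :=
  1 - (-τ * Real.logb q τ - (1 - τ) * Real.logb q (1 - τ)) - τ * Real.logb q ((q : ℝ) - 1)

/-- EXP: an expanding family of `11` maps `Fin n → Fin n` (union bound over all `N`). -/
def EXP : Prop := ∀ n : ℕ, ∃ N : Fin n → Fin 11 → Fin n, ∀ W : Finset (Fin n), W.Nonempty →
    4 * W.card ≤ n → 2 * W.card ≤ (W.biUnion fun i => (univ : Finset (Fin 11)).image (N i)).card

/-- GRD: greedy selection.  If every element conflicts with at most `k` elements and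
`(number of words) * k < card X`, words can be chosen pairwise non-conflicting. -/
def GRD : Prop := ∀ (X ι : Type) [Fintype X] [DecidableEq X] [Fintype ι] [DecidableEq ι]
    (bad : X → X → Prop) [∀ x y, Decidable (bad x y)] (k : ℕ),
    (∀ x y, bad x y → bad y x) →
    (∀ x, ((univ : Finset X).filter (fun y => bad x y)).card ≤ k) →
    Fintype.card ι * k < Fintype.card X →
    ∃ c : ι → X, ∀ i j, i ≠ j → ¬ bad (c i) (c j)

/-- AGR: for a fixed word `x : Fin n → Fin 256` the number of words which agree with `x` on some set of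
size at least `n/4` is at most `2^n * 256^n / 4^n`, i.e. times `2^n` it is less than `256^n`. -/
def AGR : Prop := ∀ n : ℕ, 0 < n → ∀ x : Fin n → Fin 256,
    2 ^ n * ((univ : Finset (Fin n → Fin 256)).filter
      (fun y => n < 4 * ((univ : Finset (Fin n)).filter (fun i => x i = y i)).card)).card < 256 ^ n

/-- COD: `2^n` words over `256` letters, two of them agree on at most `n/4` positions. -/
def COD : Prop := ∀ n : ℕ, ∃ c : Finset (Fin n) → Fin n → Fin 256,
    ∀ U V : Finset (Fin n), U ≠ V → 4 * ((univ : Finset (Fin n)).filter (fun i => c U i = c V i)).card ≤ n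

/-- LAB: the labelling with `2^19` labels which identifies every majority set of a given size. -/
def LAB : Prop := ∀ n u : ℕ, n < 2 * u → ∃ c : Finset (Fin n) → Fin n → Fin (2 ^ 19),
    ∀ U V : Finset (Fin n), U.card = u → V.card = u → U ≠ V → ∃ i ∈ U ∩ V, c U i ≠ c V i

/-- CODE: the codes. -/
def CODE : Prop := ∀ q n t r : ℕ, 2 * t < n → 2 ^ 19 * r ≤ q →
    ∃ f : Fin (r ^ (n - t)) → Finset (Fin n) → Fin n → Fin q, Corrects t f

/-- RATE: rates. -/
def RATE : Prop := ∀ q : ℕ, 2 ≤ q → ∀ τ : ℝ, 0 < τ → τ < 1 / 2 → ∀ n : ℕ, 1 ≤ n →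
    ∃ M : ℕ, 1 ≤ M ∧ (∃ f : Fin M → Finset (Fin n) → Fin n → Fin q, Corrects ⌊τ * n⌋₊ f) ∧
      (1 - τ) * (1 - 20 / Real.logb 2 q) ≤ Real.logb q M / n ∧
      hammingRate q τ - 20 / Real.logb 2 q ≤ Real.logb q M / n

end Pool.Agent.H517R2.LE
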