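import Pool.Agent.H517R2.LE.Defs

/-! EXP (helper196): an expanding family of `11` maps, by a union bound. -/

namespace Pool.Agent.H517R2.LE

open Finset

namespace TEXP

theorem pow_choose (n w : ℕ) : (w : ℝ) ^ w * (n.choose w : ℝ) ≤ (3 * (n : ℝ)) ^ w := by
  have h1 : (n.choose w : ℝ) ≤ (n : ℝ) ^ w / (w.factorial : ℝ) := Nat.choose_le_pow_div w n
  have h2 : (w : ℝ) ^ w / (w.factorial : ℝ) ≤ Real.exp w :=
    Real.pow_div_factorial_le_exp (w : ℝ) (by positivity) w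
  have h3 : Real.exp w ≤ 3 ^ w := by
    have h4 : Real.exp 1 ≤ 3 := by
      have := Real.exp_one_lt_d9
      linarith
    calc Real.exp w = Real.exp 1 ^ w := by rw [← Real.exp_nat_mul, mul_one]
      _ ≤ 3 ^ w := pow_le_pow_left₀ (Real.exp_pos _).le h4 _
  calc (w : ℝ) ^ w * (n.choose w : ℝ) ≤ (w : ℝ) ^ w * ((n : ℝ) ^ w / (w.factorial : ℝ)) := by gcongr
    _ = (w : ℝ) ^ w / (w.factorial : ℝ) * (n : ℝ) ^ w := by ring
    _ ≤ 3 ^ w * (n : ℝ) ^ w := by
        apply mul_le_mul_of_nonneg_right (h2.trans h3) (by positivity)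
    _ = (3 * (n : ℝ)) ^ w := by rw [mul_pow]

theorem term (n w : ℕ) (hw : 1 ≤ w) (hn : 4 * w ≤ n) :
    (n.choose w : ℝ) * ((n.choose (2 * w) : ℝ) * ((2 * w : ℕ) : ℝ) ^ (11 * w)) ≤
      (n : ℝ) ^ (11 * w) * (1 / 4) ^ w := by
  have h1 := pow_choose n w
  have h2 := pow_choose n (2 * w)
  have hnr : 4 * (w : ℝ) ≤ n := by exact_mod_cast hn
  have hw0 : (0 : ℝ) < w := by exact_mod_cast (by omega : 0 < w)
  have h3 : (4 * (w : ℝ)) ^ 8 ≤ (n : ℝ) ^ 8 := pow_le_pow_left₀ (by positivity) hnr 8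
  have h4 : (27 : ℝ) * 2 ^ 11 * (n : ℝ) ^ 3 * (w : ℝ) ^ 8 ≤ (n : ℝ) ^ 11 := by
    have h5 : (0 : ℝ) ≤ (n : ℝ) ^ 3 := by positivity
    have h6 : (27 : ℝ) * 2 ^ 11 * (w : ℝ) ^ 8 ≤ (4 * (w : ℝ)) ^ 8 := by
      have : (0 : ℝ) ≤ (w : ℝ) ^ 8 := by positivity
      nlinarith
    calc (27 : ℝ) * 2 ^ 11 * (n : ℝ) ^ 3 * (w : ℝ) ^ 8
        = (n : ℝ) ^ 3 * (27 * 2 ^ 11 * (w : ℝ) ^ 8) := by ring
      _ ≤ (n : ℝ) ^ 3 * (n : ℝ) ^ 8 := mul_le_mul_of_nonneg_left (h6.trans h3) h5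
      _ = (n : ℝ) ^ 11 := by ring
  have h7 : ((w : ℝ) ^ w * (n.choose w : ℝ)) *
      (((2 * w : ℕ) : ℝ) ^ (2 * w) * (n.choose (2 * w) : ℝ)) ≤
      (3 * (n : ℝ)) ^ w * (3 * (n : ℝ)) ^ (2 * w) :=
    mul_le_mul h1 h2 (by positivity) (by positivity)
  have h8 : (n.choose w : ℝ) * ((n.choose (2 * w) : ℝ) * ((2 * w : ℕ) : ℝ) ^ (11 * w)) * 4 ^ w =
      (((w : ℝ) ^ w * (n.choose w : ℝ)) *
      (((2 * w : ℕ) : ℝ) ^ (2 * w) * (n.choose (2 * w) : ℝ))) * (2 ^ 11 * (w : ℝ) ^ 8) ^ w := by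
    have e1 : ((2 * w : ℕ) : ℝ) ^ (11 * w) = ((2 * w : ℕ) : ℝ) ^ (2 * w) *
        (((2 * w : ℕ) : ℝ) ^ 9) ^ w := by
      rw [← pow_mul, ← pow_add]
      congr 1
      ring
    have e2 : (((2 * w : ℕ) : ℝ) ^ 9) ^ w * 4 ^ w = (w : ℝ) ^ w * (2 ^ 11 * (w : ℝ) ^ 8) ^ w := by
      rw [← mul_pow, ← mul_pow]
      congr 1
      push_cast
      ring
    rw [e1]
    calc _ = (n.choose w : ℝ) * (n.choose (2 * w) : ℝ) * ((2 * w : ℕ) : ℝ) ^ (2 * w) *
          ((((2 * w : ℕ) : ℝ) ^ 9) ^ w * 4 ^ w) := by ring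
      _ = _ := by rw [e2]; ring
  have h9 : (n.choose w : ℝ) * ((n.choose (2 * w) : ℝ) * ((2 * w : ℕ) : ℝ) ^ (11 * w)) * 4 ^ w ≤
      (n : ℝ) ^ (11 * w) := by
    rw [h8]
    calc _ ≤ ((3 * (n : ℝ)) ^ w * (3 * (n : ℝ)) ^ (2 * w)) * (2 ^ 11 * (w : ℝ) ^ 8) ^ w :=
          mul_le_mul_of_nonneg_right h7 (by positivity)
      _ = (27 * 2 ^ 11 * (n : ℝ) ^ 3 * (w : ℝ) ^ 8) ^ w := by
          rw [pow_mul (3 * (n : ℝ)) 2 w, ← mul_pow, ← mul_pow]
          congr 1
          ring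
      _ ≤ ((n : ℝ) ^ 11) ^ w := pow_le_pow_left₀ (by positivity) h4 _
      _ = _ := by rw [← pow_mul]
  have h10 : (1 / 4 : ℝ) ^ w = 1 / 4 ^ w := by rw [div_pow, one_pow]
  rw [h10, mul_one_div, le_div_iff₀ (by positivity)]
  exact h9

theorem geo (m : ℕ) : ∑ w ∈ range (m + 1), (if 1 ≤ w then (1 / 4 : ℝ) ^ w else 0) =
    (1 - (1 / 4) ^ m) / 3 := by
  induction m with
  | zero => simp
  | succ m ih =>
    rw [sum_range_succ, ih, if_pos (by omega), pow_succ]
    ring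

/-- the functions which map `W` into `K` -/
def A (n : ℕ) (W K : Finset (Fin n)) : Finset (Fin n → Fin 11 → Fin n) :=
  Fintype.piFinset fun i => Fintype.piFinset fun _ => if i ∈ W then K else univ

theorem card_A (n : ℕ) (W K : Finset (Fin n)) :
    (A n W K).card = (K.card ^ 11) ^ W.card * (n ^ 11) ^ (n - W.card) := by
  unfold A
  rw [Fintype.card_piFinset]
  have h1 : ∀ i : Fin n, (Fintype.piFinset fun _ : Fin 11 => if i ∈ W then K else univ).card =
      if i ∈ W then K.card ^ 11 else n ^ 11 := by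
    intro i
    rw [Fintype.card_piFinset]
    split_ifs
    · simp
    · simp
  simp only [h1]
  rw [prod_ite, prod_const, prod_const]
  have h2 : (univ.filter (fun i => i ∈ W)) = W := by ext; simp
  have h3 : (univ.filter (fun i => i ∉ W)) = Wᶜ := by ext; simp
  rw [h2, h3, card_compl, Fintype.card_fin]

end TEXP

open TEXP

theorem t_EXP : EXP := by
  intro n
  by_cases hn : n < 4
  · refine ⟨fun i _ => i, fun W hW h => ?_⟩
    have := hW.card_pos
    omega
  push Not at hn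
  by_contra hcon
  push Not at hcon
  set S := (univ : Finset (Fin n)).powerset.filter (fun W => 1 ≤ W.card ∧ 4 * W.card ≤ n) with hS
  have hcov : (univ : Finset (Fin n → Fin 11 → Fin n)) ⊆
      S.biUnion (fun W => (powersetCard (2 * W.card) univ).biUnion fun K => A n W K) := by
    intro N _
    obtain ⟨W, hW, hW4, hWN⟩ := hcon N
    have h1 : 2 * W.card ≤ (univ : Finset (Fin n)).card := by
      rw [card_univ, Fintype.card_fin]; omega
    obtain ⟨K, hK1, -, hK2⟩ := exists_subsuperset_card_eq (subset_univ _) hWN.le h1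
    rw [mem_biUnion]
    refine ⟨W, ?_, ?_⟩
    · rw [hS, mem_filter, mem_powerset]
      exact ⟨subset_univ _, hW.card_pos, hW4⟩
    · rw [mem_biUnion]
      refine ⟨K, ?_, ?_⟩
      · rw [mem_powersetCard]
        exact ⟨subset_univ _, hK2⟩
      · unfold A
        rw [Fintype.mem_piFinset]
        intro i
        rw [Fintype.mem_piFinset]
        intro k
        split_ifs with hi
        · apply hK1
          rw [mem_biUnion]
          exact ⟨i, hi, mem_image_of_mem _ (mem_univ _)⟩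
        · exact mem_univ _
  have hcard := (card_le_card hcov).trans card_biUnion_le
  have h1 : ∀ W ∈ S, ((powersetCard (2 * W.card) univ).biUnion fun K => A n W K).card ≤
      n.choose (2 * W.card) * (((2 * W.card) ^ 11) ^ W.card * (n ^ 11) ^ (n - W.card)) := by
    intro W _
    refine card_biUnion_le.trans ?_
    calc ∑ K ∈ powersetCard (2 * W.card) (univ : Finset (Fin n)), (A n W K).card
        = ∑ K ∈ powersetCard (2 * W.card) (univ : Finset (Fin n)),
            (((2 * W.card) ^ 11) ^ W.card * (n ^ 11) ^ (n - W.card)) := by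
          apply sum_congr rfl
          intro K hK
          rw [mem_powersetCard] at hK
          rw [card_A, hK.2]
      _ ≤ _ := by
          rw [sum_const, card_powersetCard, card_univ, Fintype.card_fin, smul_eq_mul]
  have h2 := hcard.trans (sum_le_sum h1)
  rw [card_univ, Fintype.card_fun, Fintype.card_fun, Fintype.card_fin, Fintype.card_fin] at h2
  have hn0 : (0 : ℝ) < n := by exact_mod_cast (by omega : 0 < n)
  set g : ℕ → ℝ := fun w => if 1 ≤ w ∧ 4 * w ≤ n then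
    (n.choose (2 * w) : ℝ) * (((2 * w : ℕ) : ℝ) ^ (11 * w) * (n : ℝ) ^ (11 * (n - w))) else 0 with hg
  have h3 : ((n : ℝ) ^ 11) ^ n ≤ ∑ W ∈ (univ : Finset (Fin n)).powerset, g W.card := by
    have h4 : (((n ^ 11) ^ n : ℕ) : ℝ) ≤ ((∑ W ∈ S, n.choose (2 * W.card) *
        (((2 * W.card) ^ 11) ^ W.card * (n ^ 11) ^ (n - W.card)) : ℕ) : ℝ) := by exact_mod_cast h2
    push_cast at h4
    refine h4.trans (le_of_eq ?_)
    rw [hS, sum_filter]
    apply sum_congr rfl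
    intro W _
    simp only [hg]
    split_ifs
    · push_cast
      rw [← pow_mul, ← pow_mul]
    · rfl
  rw [sum_powerset_apply_card, card_univ, Fintype.card_fin] at h3
  have h5 : ∑ m ∈ range (n + 1), n.choose m • g m ≤
      ∑ m ∈ range (n + 1), ((n : ℝ) ^ 11) ^ n * (if 1 ≤ m then (1 / 4 : ℝ) ^ m else 0) := by
    apply sum_le_sum
    intro w hw
    rw [mem_range] at hw
    simp only [hg, nsmul_eq_mul]
    by_cases h : 1 ≤ w ∧ 4 * w ≤ n
    · rw [if_pos h, if_pos h.1]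
      have h6 := term n w h.1 h.2
      have h7 : ((n : ℝ) ^ 11) ^ n = (n : ℝ) ^ (11 * w) * (n : ℝ) ^ (11 * (n - w)) := by
        rw [← pow_mul, ← pow_add]
        congr 1
        have := Nat.mul_sub 11 n w
        omega
      rw [h7]
      calc _ = ((n.choose w : ℝ) * ((n.choose (2 * w) : ℝ) * ((2 * w : ℕ) : ℝ) ^ (11 * w))) *
            (n : ℝ) ^ (11 * (n - w)) := by ring
        _ ≤ ((n : ℝ) ^ (11 * w) * (1 / 4) ^ w) * (n : ℝ) ^ (11 * (n - w)) :=
            mul_le_mul_of_nonneg_right h6 (by positivity)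
        _ = _ := by ring
    · rw [if_neg h, mul_zero]
      split_ifs <;> positivity
  rw [← mul_sum, geo] at h5
  have h8 : (0 : ℝ) < ((n : ℝ) ^ 11) ^ n := by positivity
  have h9 : (0 : ℝ) < (1 / 4 : ℝ) ^ n := by positivity
  have h10 := h3.trans h5
  nlinarith

end Pool.Agent.H517R2.LE
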