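import Pool.Agent.H517R2.LE.Defs

/-! Task GRD: greedy selection. -/

namespace Pool.Agent.H517R2.LE

open Finset

theorem t_GRD : GRD := by
  intro X ι _ _ _ _ bad _ k hsymm hk hcard
  have hX : 0 < Fintype.card X := by omega
  obtain ⟨x0⟩ : Nonempty X := Fintype.card_pos_iff.1 hX
  have main : ∀ S : Finset ι, ∃ c : ι → X, ∀ i ∈ S, ∀ j ∈ S, i ≠ j → ¬ bad (c i) (c j) := by
    intro S
    induction S using Finset.induction_on with
    | empty => exact ⟨fun _ => x0, fun i hi => absurd hi (Finset.notMem_empty i)⟩
    | insert a S ha ih =>
      obtain ⟨c, hc⟩ := ih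
      have h1 : (S.biUnion fun j => (univ : Finset X).filter (fun y => bad (c j) y)).card
          ≤ S.card * k := Finset.card_biUnion_le_card_mul _ _ _ fun j _ => hk (c j)
      have h2 : S.card * k ≤ Fintype.card ι * k :=
        Nat.mul_le_mul_right _ (Finset.card_le_univ S)
      obtain ⟨y, hy⟩ : ∃ y, y ∉ S.biUnion fun j => (univ : Finset X).filter (fun y => bad (c j) y) := by
        by_contra hcon
        push Not at hcon
        have h3 : (univ : Finset X) ⊆
            S.biUnion fun j => (univ : Finset X).filter (fun y => bad (c j) y) :=
          fun y _ => hcon y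
        have h4 := Finset.card_le_card h3
        rw [Finset.card_univ] at h4
        omega
      have hy' : ∀ j ∈ S, ¬ bad (c j) y := by
        intro j hj hb
        exact hy (Finset.mem_biUnion.2 ⟨j, hj, Finset.mem_filter.2 ⟨Finset.mem_univ _, hb⟩⟩)
      refine ⟨Function.update c a y, ?_⟩
      intro i hi j hj hij
      by_cases hia : i = a
      · subst hia
        have hji : j ≠ i := fun h => hij h.symm
        have hjS : j ∈ S := (Finset.mem_insert.1 hj).resolve_left hji
        rw [Function.update_self, Function.update_of_ne hji]
        exact fun hb => hy' j hjS (hsymm _ _ hb)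
      · have hiS : i ∈ S := (Finset.mem_insert.1 hi).resolve_left hia
        rw [Function.update_of_ne hia]
        by_cases hja : j = a
        · subst hja
          rw [Function.update_self]
          exact hy' i hiS
        · have hjS : j ∈ S := (Finset.mem_insert.1 hj).resolve_left hja
          rw [Function.update_of_ne hja]
          exact hc i hiS j hjS hij
  obtain ⟨c, hc⟩ := main univ
  exact ⟨c, fun i j hij => hc i (Finset.mem_univ _) j (Finset.mem_univ _) hij⟩

end Pool.Agent.H517R2.LE
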