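import Pool.Agent.H517R2.LE.Defs

/-! Task LAB: the labelling. -/

namespace Pool.Agent.H517R2.LE

open Finset

theorem t_LAB (h1 : EXP) (h2 : COD) : LAB := by
  classical
  intro n u hnu
  obtain ⟨N, hN⟩ := h1 n
  obtain ⟨c2, hc2⟩ := h2 n
  have hcard : Fintype.card ((Fin 11 → Bool) × Fin 256) = 2 ^ 19 := by
    simp
  let e : ((Fin 11 → Bool) × Fin 256) ≃ Fin (2 ^ 19) := Fintype.equivFinOfCardEq hcard
  refine ⟨fun U i => e (fun k => decide (N i k ∈ U), c2 U i), ?_⟩
  intro U V hU hV hUV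
  by_contra hcon
  push Not at hcon
  have hag : ∀ i ∈ U ∩ V, (∀ k, N i k ∈ U ↔ N i k ∈ V) ∧ c2 U i = c2 V i := by
    intro i hi
    have h3 := e.injective (hcon i hi)
    rw [Prod.mk.injEq] at h3
    refine ⟨fun k => ?_, h3.2⟩
    have h4 := congrFun h3.1 k
    simpa using h4
  have hun : (U ∪ V).card + (U ∩ V).card = 2 * u := by
    rw [card_union_add_card_inter, hU, hV]; ring
  have hle : (U ∪ V).card ≤ n := by
    calc (U ∪ V).card ≤ (univ : Finset (Fin n)).card := card_le_univ _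
      _ = n := by simp
  have hW : (U ∩ V).Nonempty := by
    rw [← card_pos]
    omega
  by_cases h4 : 4 * (U ∩ V).card ≤ n
  · have h5 := hN (U ∩ V) hW h4
    have h6 : ((U ∩ V).biUnion fun i => (univ : Finset (Fin 11)).image (N i)) ⊆
        (U ∩ V) ∪ (U ∪ V)ᶜ := by
      intro j hj
      rw [mem_biUnion] at hj
      obtain ⟨i, hi, hj⟩ := hj
      rw [mem_image] at hj
      obtain ⟨k, -, rfl⟩ := hj
      have h7 := (hag i hi).1 k
      rw [mem_union, mem_inter, mem_compl, mem_union]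
      by_cases hu : N i k ∈ U
      · exact Or.inl ⟨hu, h7.1 hu⟩
      · exact Or.inr (fun h => h.elim hu (fun h' => hu (h7.2 h')))
    have h8 := card_le_card h6
    have h9 := card_union_le (U ∩ V) (U ∪ V)ᶜ
    have h10 : (U ∪ V)ᶜ.card = n - (U ∪ V).card := by
      rw [card_compl, Fintype.card_fin]
    omega
  · have h5 := hc2 U V hUV
    have h6 : (U ∩ V) ⊆ (univ : Finset (Fin n)).filter (fun i => c2 U i = c2 V i) := by
      intro i hi
      rw [mem_filter]
      exact ⟨mem_univ _, (hag i hi).2⟩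
    have h7 := card_le_card h6
    omega

end Pool.Agent.H517R2.LE
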