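import Pool.Agent.H517R2.LE.Defs

/-! RATE: rates of the codes for localized errors -/

namespace Pool.Agent.H517R2.LE

open Finset

theorem RATE_hamming (q : ℕ) (hq : 2 ≤ q) (τ : ℝ) (h0 : 0 < τ) (h1 : τ < 1 / 2) :
    hammingRate q τ ≤ 1 - τ := by
  have hq2 : (2 : ℝ) ≤ q := by exact_mod_cast hq
  have hlq : 0 < Real.log q := Real.log_pos (by linarith)
  have a1 : Real.log τ ≤ -Real.log 2 := by
    have h := Real.log_le_log h0 h1.le
    rwa [one_div, Real.log_inv] at h
  have a2 : Real.log (1 - τ) ≤ 0 := Real.log_nonpos (by linarith) (by linarith)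
  have a3 : Real.log q - Real.log 2 ≤ Real.log ((q : ℝ) - 1) := by
    rw [← Real.log_div (by linarith) (by norm_num)]
    exact Real.log_le_log (by positivity) (by linarith)
  have key : τ * Real.log τ + (1 - τ) * Real.log (1 - τ) - τ * Real.log ((q : ℝ) - 1) ≤
      -τ * Real.log q := by
    have b1 : τ * Real.log τ ≤ τ * (-Real.log 2) := mul_le_mul_of_nonneg_left a1 h0.le
    have b2 : (1 - τ) * Real.log (1 - τ) ≤ 0 :=
      mul_nonpos_of_nonneg_of_nonpos (by linarith) a2
    have b3 : τ * (Real.log q - Real.log 2) ≤ τ * Real.log ((q : ℝ) - 1) :=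
      mul_le_mul_of_nonneg_left a3 h0.le
    nlinarith
  have e : hammingRate q τ = 1 + (τ * Real.log τ + (1 - τ) * Real.log (1 - τ) -
      τ * Real.log ((q : ℝ) - 1)) / Real.log q := by
    unfold hammingRate Real.logb
    ring
  rw [e]
  have : (τ * Real.log τ + (1 - τ) * Real.log (1 - τ) - τ * Real.log ((q : ℝ) - 1)) /
      Real.log q ≤ -τ := by
    rw [div_le_iff₀ hlq]
    exact key
  linarith

theorem t_RATE (h : CODE) : RATE := by
  intro q hq τ h0 h1 n hn
  have hq2 : (2 : ℝ) ≤ q := by exact_mod_cast hq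
  have hlq : 0 < Real.log q := Real.log_pos (by linarith)
  have hl2 : 0 < Real.log 2 := Real.log_pos (by norm_num)
  have hn' : (1 : ℝ) ≤ n := by exact_mod_cast hn
  have hn0 : (0 : ℝ) < n := by linarith
  set L := Real.logb 2 q with hL
  have hLe : L = Real.log q / Real.log 2 := rfl
  have hLpos : 0 < L := by rw [hLe]; exact div_pos hlq hl2
  have hham := RATE_hamming q hq τ h0 h1
  have hdiv : 0 < 20 / L := by positivity
  rcases Nat.lt_or_ge q (2 ^ 20) with hsmall | hbig
  · refine ⟨1, le_rfl, ⟨fun _ _ _ => ⟨0, by omega⟩, ?_⟩, ?_, ?_⟩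
    · intro m m' hne
      exact absurd (Subsingleton.elim m m') hne
    · have hL20 : L < 20 := by
        rw [hLe, div_lt_iff₀ hl2]
        have : Real.log q < Real.log ((2 : ℝ) ^ 20) :=
          Real.log_lt_log (by linarith) (by exact_mod_cast hsmall)
        rwa [Real.log_pow] at this
      have h20 : 1 < 20 / L := by rwa [lt_div_iff₀ hLpos, one_mul]
      rw [Nat.cast_one, Real.logb_one, zero_div]
      exact mul_nonpos_of_nonneg_of_nonpos (by linarith) (by linarith)
    · have hL20 : L < 20 := by
        rw [hLe, div_lt_iff₀ hl2]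
        have : Real.log q < Real.log ((2 : ℝ) ^ 20) :=
          Real.log_lt_log (by linarith) (by exact_mod_cast hsmall)
        rwa [Real.log_pow] at this
      have h20 : 1 < 20 / L := by rwa [lt_div_iff₀ hLpos, one_mul]
      rw [Nat.cast_one, Real.logb_one, zero_div]
      linarith
  · set t := ⌊τ * n⌋₊ with ht
    have htle : (t : ℝ) ≤ τ * n := Nat.floor_le (by positivity)
    have ht2 : 2 * t < n := by
      have : (2 : ℝ) * t < n := by nlinarith
      exact_mod_cast this
    set r := q / 2 ^ 19 with hr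
    have hr1 : 2 ^ 19 * r ≤ q := Nat.mul_div_le q (2 ^ 19)
    have hr2 : 2 ≤ r := by
      rw [hr, Nat.le_div_iff_mul_le (by norm_num)]
      omega
    have hr3 : q < 2 ^ 19 * (r + 1) := Nat.lt_mul_div_succ q (by norm_num)
    have hrr : (q : ℝ) / 2 ^ 20 ≤ r := by
      rw [div_le_iff₀ (by positivity)]
      have : q ≤ r * 2 ^ 20 := by omega
      exact_mod_cast this
    have hr0 : (0 : ℝ) < r := by
      have : 0 < r := by omega
      exact_mod_cast this
    have hlogr : Real.log q - 20 * Real.log 2 ≤ Real.log r := by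
      have e : Real.log q - 20 * Real.log 2 = Real.log ((q : ℝ) / 2 ^ 20) := by
        rw [Real.log_div (by linarith) (by positivity), Real.log_pow]
        norm_num
      rw [e]
      exact Real.log_le_log (by positivity) hrr
    have hlb : 1 - 20 / L ≤ Real.logb q r := by
      unfold Real.logb
      rw [le_div_iff₀ hlq, hLe]
      have e : (1 - 20 / (Real.log q / Real.log 2)) * Real.log q =
          Real.log q - 20 * Real.log 2 := by
        field_simp
      rw [e]
      exact hlogr
    have hLge : 0 ≤ 1 - 20 / L := by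
      have hL20 : 20 ≤ L := by
        rw [hLe, le_div_iff₀ hl2]
        have : Real.log ((2 : ℝ) ^ 20) ≤ Real.log q :=
          Real.log_le_log (by positivity) (by exact_mod_cast hbig)
        rwa [Real.log_pow] at this
      have : 20 / L ≤ 1 := by rwa [div_le_one hLpos]
      linarith
    have hrate : (1 - τ) * (1 - 20 / L) ≤ Real.logb q ((r ^ (n - t) : ℕ) : ℝ) / n := by
      have e1 : Real.logb q ((r ^ (n - t) : ℕ) : ℝ) = ((n : ℝ) - t) * Real.logb q r := by
        rw [Nat.cast_pow, Real.logb_pow, Nat.cast_sub (by omega)]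
      rw [e1, le_div_iff₀ hn0]
      have e2 : (1 - τ) * (1 - 20 / L) * n = ((1 - τ) * n) * (1 - 20 / L) := by ring
      rw [e2]
      exact mul_le_mul (by linarith) hlb hLge (by
        have : (t : ℝ) ≤ n := by
          have : t ≤ n := by omega
          exact_mod_cast this
        linarith)
    obtain ⟨f, hf⟩ := h q n t r ht2 hr1
    refine ⟨r ^ (n - t), Nat.one_le_pow _ _ (by omega), ⟨f, hf⟩, hrate, ?_⟩
    refine le_trans ?_ hrate
    have : 0 ≤ τ * (20 / L) := by positivity
    nlinarith

end Pool.Agent.H517R2.LE
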